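import Mathlib
import Pool.Agent.H34.KRS

/-!
# Optimal-order `C_h[g]`-sets for `g ≥ (h-1)! + 1`

The construction uses the projective norm graphs of Alon, Ronyai and Szabo: the set
`{(X, N X)}` in `F_{p^(h-1)} × F_p^*`, transported to the integers by base `p` digits and discrete
logarithms. The algebraic input (the Kollar-Ronyai-Szabo lemma on systems of norm equations) is
proved in `Pool.Agent.H34.KRS`.
-/

set_option autoImplicit false

namespace Pool.Agent.Results.MP_7f687a_co.ProjectiveNorm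

open Finset Pool.Agent.H34.KRS

/-- `A` is a `C_h[g]`-set: it does not contain `g` distinct translates of a set of `h` integers. -/
def IsCSet (g h : ℕ) (A : Set ℤ) : Prop :=
  ¬ ∃ X : Finset ℤ, X.card = h ∧ ∃ K : Finset ℤ, K.card = g ∧ ∀ k ∈ K, ∀ x ∈ X, x + k ∈ A

/-- Optimal-order `C_h[g]`-sets exist. -/
def OptimalOrder (g h : ℕ) : Prop :=
  ∃ c : ℝ, 0 < c ∧ ∃ n₀ : ℕ, ∀ n : ℕ, n₀ ≤ n →
    ∃ A : Finset ℤ, (∀ a ∈ A, 1 ≤ a ∧ a ≤ (n : ℤ)) ∧ IsCSet g h (A : Set ℤ) ∧
      c * (n : ℝ) ^ (1 - 1 / (h : ℝ)) ≤ (A.card : ℝ)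


/-- Group version. -/
theorem group_bound (p : ℕ) [hp : Fact p.Prime] (t : ℕ) (ht : t ≠ 0) (X : Fin (t + 1) → GaloisField p t) (hX : Function.Injective X)
    (u : Fin (t + 1) → ZMod p) (hu : ∀ i, u i ≠ 0) (T : Finset (GaloisField p t)) (c : GaloisField p t → ZMod p)
    (hc : ∀ Y ∈ T, c Y ≠ 0)
    (hT : ∀ Y ∈ T, ∀ i, Algebra.norm (ZMod p) (X i + Y) = u i * c Y) : T.card ≤ t.factorial := by
  classical
  have hfr : Module.finrank (ZMod p) (GaloisField p t) = t := GaloisField.finrank p ht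
  have hfin : Finite (GaloisField p t) := inferInstance
  have hchar : CharP (GaloisField p t) p := inferInstance
  have hnorm : ∀ w : GaloisField p t, algebraMap (ZMod p) (GaloisField p t) (Algebra.norm (ZMod p) w)
      = ∏ j : Fin t, w ^ (p ^ (j : ℕ)) := by
    intro w
    rw [FiniteField.algebraMap_norm_eq_prod_pow, hfr, Finset.prod_range]
    simp
  set x₀ := X (Fin.last t) with hx₀
  let d : Fin t → GaloisField p t := fun i => X i.castSucc - x₀
  have hd : ∀ i, d i ≠ 0 := by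
    intro i h
    have := hX (sub_eq_zero.mp h)
    exact (Fin.castSucc_lt_last i).ne this
  have hdinj : Function.Injective d := by
    intro i i' h
    have := hX (sub_left_injective h)
    exact Fin.castSucc_injective _ this
  have hne : ∀ Y ∈ T, x₀ + Y ≠ 0 := by
    intro Y hY h0
    have := hT Y hY (Fin.last t)
    rw [← hx₀, h0, Algebra.norm_zero] at this
    exact mul_ne_zero (hu _) (hc Y hY) this.symm
  have hfrob : ∀ (j : ℕ) (x y : GaloisField p t), x ^ p ^ j = y ^ p ^ j → x = y := by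
    intro j x y h
    have h1 : (x - y) ^ p ^ j = 0 := by
      rw [sub_pow_char_pow, h, sub_self]
    exact sub_eq_zero.mp (pow_eq_zero_iff (pow_ne_zero _ hp.out.ne_zero) |>.mp h1)
  let Φ : GaloisField p t → (Fin t → GaloisField p t) := fun Y j => ((x₀ + Y)⁻¹) ^ (p ^ (j : ℕ))
  have hΦ : Set.InjOn Φ T := by
    intro Y hY Y' hY' h
    have h0 := congrFun h ⟨0, Nat.pos_of_ne_zero ht⟩
    have h1 := hfrob _ _ _ h0
    have h2 := inv_injective h1
    exact add_left_cancel h2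
  rw [← Finset.card_image_of_injOn hΦ]
  refine krs (fun i j => - ((d i)⁻¹) ^ (p ^ (j : ℕ))) ?_
    (fun i => algebraMap (ZMod p) (GaloisField p t) (u i.castSucc / (Algebra.norm (ZMod p) (d i) * u (Fin.last t)))) _ ?_
  · intro j i i' h
    simp only [neg_inj] at h
    exact hdinj (inv_injective (hfrob _ _ _ h))
  · intro y hy i
    rw [Finset.mem_image] at hy
    obtain ⟨Y, hY, rfl⟩ := hy
    have hY0 := hne Y hY
    have e1 : ∏ j : Fin t, (Φ Y j - -((d i)⁻¹) ^ (p ^ (j : ℕ))) =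
        ∏ j : Fin t, (((x₀ + Y)⁻¹ + (d i)⁻¹)) ^ (p ^ (j : ℕ)) := by
      refine Finset.prod_congr rfl (fun j _ => ?_)
      rw [sub_neg_eq_add, add_pow_char_pow]
    rw [e1, ← hnorm]
    congr 1
    have e2 : (x₀ + Y)⁻¹ + (d i)⁻¹ = (X i.castSucc + Y) * ((d i)⁻¹ * (x₀ + Y)⁻¹) := by
      have : X i.castSucc + Y = d i + (x₀ + Y) := by simp only [d]; ring
      rw [this]
      have := hd i
      field_simp
    have hN0 : Algebra.norm (ZMod p) (d i) ≠ 0 := by
      rw [Ne, Algebra.norm_eq_zero_iff]; exact hd i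
    have e3 := hT Y hY i.castSucc
    have e4 := hT Y hY (Fin.last t)
    rw [← hx₀] at e4
    rw [e2, map_mul, map_mul, e3, Algebra.norm_inv, Algebra.norm_inv, e4]
    have := hu (Fin.last t)
    have := hc Y hY
    field_simp

/-- Uniqueness of digit expansions with small (signed) digits. -/
lemma digits_unique (p : ℕ) : ∀ (t : ℕ) (z : Fin t → ℤ) (g : ℤ), (∀ j, |z j| < p) →
    ∑ j : Fin t, z j * (p : ℤ) ^ (j : ℕ) + g * (p : ℤ) ^ t = 0 → (∀ j, z j = 0) ∧ g = 0 := by
  intro t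
  induction t with
  | zero =>
    intro z g hz h
    simp at h
    exact ⟨fun j => j.elim0, h⟩
  | succ t ih =>
    intro z g hz h
    rw [Fin.sum_univ_succ] at h
    simp only [Fin.val_zero, pow_zero, mul_one, Fin.val_succ] at h
    have hp0 : (0 : ℤ) < p := lt_of_le_of_lt (abs_nonneg _) (hz 0)
    have e : ∑ i : Fin t, z i.succ * (p : ℤ) ^ ((i : ℕ) + 1) = (p : ℤ) * ∑ i : Fin t, z i.succ * (p : ℤ) ^ (i : ℕ) := by
      rw [Finset.mul_sum]
      refine Finset.sum_congr rfl (fun i _ => ?_)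
      ring
    rw [e] at h
    have h0 : z 0 = 0 := by
      apply Int.eq_zero_of_abs_lt_dvd (m := (p : ℤ)) _ (hz 0)
      refine ⟨-(∑ i : Fin t, z i.succ * (p : ℤ) ^ (i : ℕ) + g * (p : ℤ) ^ t), ?_⟩
      rw [pow_succ] at h
      linarith
    have h1 : ∑ i : Fin t, z i.succ * (p : ℤ) ^ (i : ℕ) + g * (p : ℤ) ^ t = 0 := by
      rw [h0, pow_succ] at h
      have : (p : ℤ) * (∑ i : Fin t, z i.succ * (p : ℤ) ^ (i : ℕ) + g * (p : ℤ) ^ t) = 0 := by linarith
      exact (mul_eq_zero.mp this).resolve_left hp0.ne'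
    obtain ⟨h2, h3⟩ := ih (fun i => z i.succ) g (fun i => hz i.succ) h1
    refine ⟨fun j => ?_, h3⟩
    refine Fin.cases h0 h2 j

section construction

variable (p : ℕ) [hp : Fact p.Prime] (t : ℕ) (ht : t ≠ 0)

/-- A basis of the field. -/
noncomputable def bas : Module.Basis (Fin t) (ZMod p) (GaloisField p t) :=
  Module.finBasisOfFinrankEq (ZMod p) (GaloisField p t) (GaloisField.finrank p ht)

/-- The field element with given digits. -/
noncomputable def toF (v : Fin t → ℕ) : GaloisField p t := ∑ j, (v j : ZMod p) • bas p t ht j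

lemma toF_inj {v w : Fin t → ℕ} (hv : ∀ j, v j < p) (hw : ∀ j, w j < p) (h : toF p t ht v = toF p t ht w) : v = w := by
  have h1 : ∀ j, (v j : ZMod p) = (w j : ZMod p) := by
    intro j
    have h2 := congrArg (fun x => (bas p t ht).repr x j) h
    simpa [toF, Finsupp.single_apply] using h2
  ext j
  have := (ZMod.natCast_eq_natCast_iff' _ _ _).mp (h1 j)
  rwa [Nat.mod_eq_of_lt (hv j), Nat.mod_eq_of_lt (hw j)] at this

/-- A generator of the multiplicative group. -/
noncomputable def gen : (ZMod p)ˣ := (IsCyclic.exists_generator (α := (ZMod p)ˣ)).choose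

lemma exists_dlog (x : ZMod p) (hx : x ≠ 0) : ∃ e : ℕ, e < p - 1 ∧ ((gen p : (ZMod p)ˣ) : ZMod p) ^ e = x := by
  classical
  have h := (IsCyclic.exists_generator (α := (ZMod p)ˣ)).choose_spec (Units.mk0 x hx)
  rw [← mem_powers_iff_mem_zpowers, mem_powers_iff_mem_range_orderOf, Finset.mem_image] at h
  obtain ⟨e, he, he2⟩ := h
  rw [Finset.mem_range] at he
  refine ⟨e, ?_, ?_⟩
  · refine lt_of_lt_of_le he ?_
    rw [← ZMod.card_units p]
    exact orderOf_le_card_univ
  · have := congrArg (fun z : (ZMod p)ˣ => (z : ZMod p)) he2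
    simpa [gen] using this

open Classical in
/-- The discrete logarithm. -/
noncomputable def dlog (x : ZMod p) : ℕ := if h : x ≠ 0 then (exists_dlog p x h).choose else 0

lemma dlog_lt (x : ZMod p) : dlog p x < p - 1 := by
  unfold dlog
  split_ifs with h
  · exact (exists_dlog p x h).choose_spec.1
  · have := hp.out.two_le; omega

lemma gen_pow_dlog {x : ZMod p} (hx : x ≠ 0) : ((gen p : (ZMod p)ˣ) : ZMod p) ^ (dlog p x) = x := by
  unfold dlog
  rw [dif_pos hx]
  exact (exists_dlog p x hx).choose_spec.2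

/-- exponent attached to a digit vector -/
noncomputable def ex (v : Fin t → ℕ) : ℕ := dlog p (Algebra.norm (ZMod p) (toF p t ht v))

/-- The integer attached to a digit vector. -/
noncomputable def psi (v : Fin t → ℕ) : ℤ := ∑ j, (v j : ℤ) * (p : ℤ) ^ (j : ℕ) + (ex p t ht v : ℤ) * (p : ℤ) ^ t

/-- Admissible digit vectors. -/
def dig : Finset (Fin t → ℕ) := (Fintype.piFinset (fun _ => Finset.range ((p + 1) / 2))).erase 0

variable {p t}

lemma mem_dig {v : Fin t → ℕ} : v ∈ dig p t ↔ v ≠ 0 ∧ ∀ j, v j < (p + 1) / 2 := by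
  simp [dig, Fintype.mem_piFinset]

lemma dig_lt {v : Fin t → ℕ} (hv : v ∈ dig p t) (j : Fin t) : v j < p := by
  have := (mem_dig.mp hv).2 j
  have := hp.out.two_le
  omega

lemma dig_bound {v : Fin t → ℕ} (hv : v ∈ dig p t) (j : Fin t) : 2 * v j < p := by
  have := (mem_dig.mp hv).2 j
  omega

lemma toF_ne {v : Fin t → ℕ} (hv : v ∈ dig p t) : toF p t ht v ≠ 0 := by
  intro h
  have h0 : toF p t ht (0 : Fin t → ℕ) = 0 := by simp [toF]
  have := toF_inj p t ht (dig_lt hv) (w := 0) (fun j => hp.out.pos) (h.trans h0.symm)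
  exact (mem_dig.mp hv).1 this

lemma norm_ne {v : Fin t → ℕ} (hv : v ∈ dig p t) : Algebra.norm (ZMod p) (toF p t ht v) ≠ 0 := by
  rw [Ne, Algebra.norm_eq_zero_iff]; exact toF_ne ht hv

/-- comparing four admissible vectors -/
lemma psi_diff {v v' w w' : Fin t → ℕ} (hv : v ∈ dig p t) (hv' : v' ∈ dig p t) (hw : w ∈ dig p t) (hw' : w' ∈ dig p t)
    (h : psi p t ht v - psi p t ht v' = psi p t ht w - psi p t ht w') :
    (∀ j, (v j : ℤ) - v' j = w j - w' j) ∧ (ex p t ht v : ℤ) - ex p t ht v' = ex p t ht w - ex p t ht w' := by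
  have key := digits_unique p t (fun j => ((v j : ℤ) - v' j) - ((w j : ℤ) - w' j))
    (((ex p t ht v : ℤ) - ex p t ht v') - ((ex p t ht w : ℤ) - ex p t ht w')) ?_ ?_
  · exact ⟨fun j => sub_eq_zero.mp (key.1 j), sub_eq_zero.mp key.2⟩
  · intro j
    have h1 := dig_bound hv j
    have h2 := dig_bound hv' j
    have h3 := dig_bound hw j
    have h4 := dig_bound hw' j
    rw [abs_lt]
    constructor <;> omega
  · unfold psi at h
    have e : ∑ j : Fin t, (((v j : ℤ) - v' j) - ((w j : ℤ) - w' j)) * (p : ℤ) ^ (j : ℕ)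
       = (∑ j : Fin t, (v j : ℤ) * (p : ℤ) ^ (j : ℕ) - ∑ j : Fin t, (v' j : ℤ) * (p : ℤ) ^ (j : ℕ))
        - (∑ j : Fin t, (w j : ℤ) * (p : ℤ) ^ (j : ℕ) - ∑ j : Fin t, (w' j : ℤ) * (p : ℤ) ^ (j : ℕ)) := by
      simp only [← Finset.sum_sub_distrib]
      refine Finset.sum_congr rfl (fun j _ => by ring)
    rw [e]
    linarith

lemma psi_inj : Set.InjOn (psi p t ht) (dig p t : Set (Fin t → ℕ)) := by
  intro v hv w hw h
  have := (psi_diff ht hv hw hv hv (by rw [h])).1
  ext j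
  have := this j
  omega

/-- The set. -/
noncomputable def theSet : Finset ℤ := (dig p t).image (psi p t ht)

lemma card_theSet : (theSet (p := p) (t := t) ht).card = ((p + 1) / 2) ^ t - 1 := by
  rw [theSet, Finset.card_image_of_injOn (psi_inj ht), dig, Finset.card_erase_of_mem]
  · simp
  · have := hp.out.two_le
    simp only [Fintype.mem_piFinset, Pi.zero_apply, Finset.mem_range]
    intro _; omega

lemma theSet_range {a : ℤ} (ha : a ∈ theSet (p := p) (t := t) ht) : 1 ≤ a ∧ a ≤ (p : ℤ) ^ (t + 1) := by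
  rw [theSet, Finset.mem_image] at ha
  obtain ⟨v, hv, rfl⟩ := ha
  have hp2 := hp.out.two_le
  have hppos : (0 : ℤ) < p := by exact_mod_cast hp.out.pos
  constructor
  · -- some digit is nonzero
    have hne := (mem_dig.mp hv).1
    obtain ⟨j, hj⟩ : ∃ j, v j ≠ 0 := by
      by_contra hcon
      push Not at hcon
      exact hne (funext hcon)
    have h1 : (1 : ℤ) ≤ (v j : ℤ) * (p : ℤ) ^ (j : ℕ) := by
      have h2 : (1 : ℤ) ≤ v j := by exact_mod_cast Nat.pos_of_ne_zero hj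
      have h3 : (1 : ℤ) ≤ (p : ℤ) ^ (j : ℕ) := one_le_pow₀ (by omega)
      nlinarith
    have h4 : (v j : ℤ) * (p : ℤ) ^ (j : ℕ) ≤ ∑ j, (v j : ℤ) * (p : ℤ) ^ (j : ℕ) :=
      Finset.single_le_sum (f := fun j => (v j : ℤ) * (p : ℤ) ^ (j : ℕ)) (fun i _ => by positivity) (Finset.mem_univ j)
    have h5 : (0 : ℤ) ≤ (ex p t ht v : ℤ) * (p : ℤ) ^ t := by positivity
    unfold psi
    linarith
  · have h1 : ∑ j, (v j : ℤ) * (p : ℤ) ^ (j : ℕ) ≤ (p : ℤ) ^ t - 1 := by
      have h2 : ∑ j : Fin t, (v j : ℤ) * (p : ℤ) ^ (j : ℕ) ≤ ∑ j : Fin t, ((p : ℤ) - 1) * (p : ℤ) ^ (j : ℕ) := by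
        refine Finset.sum_le_sum (fun j _ => ?_)
        apply mul_le_mul_of_nonneg_right _ (by positivity)
        have := dig_lt hv j
        omega
      have h3 : ∑ j : Fin t, ((p : ℤ) - 1) * (p : ℤ) ^ (j : ℕ) = (p : ℤ) ^ t - 1 := by
        rw [← Finset.mul_sum, Fin.sum_univ_eq_sum_range (fun j => (p : ℤ) ^ j) t, mul_comm]
        exact geom_sum_mul _ _
      linarith
    have h2 : (ex p t ht v : ℤ) * (p : ℤ) ^ t ≤ ((p : ℤ) - 1) * (p : ℤ) ^ t := by
      apply mul_le_mul_of_nonneg_right _ (by positivity)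
      have := dlog_lt p (Algebra.norm (ZMod p) (toF p t ht v))
      unfold ex
      omega
    unfold psi
    rw [pow_succ]
    linarith

/-- digit vectors with equal differences give field elements with equal differences -/
lemma toF_diff {v v' w w' : Fin t → ℕ} (h : ∀ j, (v j : ℤ) - v' j = w j - w' j) :
    toF p t ht v - toF p t ht v' = toF p t ht w - toF p t ht w' := by
  unfold toF
  simp only [← Finset.sum_sub_distrib, ← sub_smul]
  refine Finset.sum_congr rfl (fun j _ => ?_)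
  congr 1
  have := congrArg (fun z : ℤ => (z : ZMod p)) (h j)
  simpa using this

theorem theSet_isCSet {g : ℕ} (hg : t.factorial + 1 ≤ g) :
    IsCSet g (t + 1) (theSet (p := p) (t := t) ht : Set ℤ) := by
  classical
  rintro ⟨X, hX, K, hK, hXK⟩
  -- choose digit vectors
  have h1 : ∀ x ∈ X, ∀ k ∈ K, ∃ v, v ∈ dig p t ∧ psi p t ht v = x + k := by
    intro x hx k hk
    have := hXK k hk x hx
    rw [theSet, Finset.coe_image] at this
    obtain ⟨v, hv, hv2⟩ := this
    exact ⟨v, hv, hv2⟩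
  choose! V hV hVpsi using h1
  have hKne : K.Nonempty := by rw [← Finset.card_pos]; omega
  obtain ⟨k₀, hk₀⟩ := hKne
  -- enumerate X
  let e : Fin (t + 1) ≃ X := (X.equivFinOfCardEq hX).symm
  let x : Fin (t + 1) → ℤ := fun i => (e i : ℤ)
  have hx : ∀ i, x i ∈ X := fun i => (e i).2
  have hxinj : Function.Injective x := fun i i' h => e.injective (Subtype.ext h)
  -- independence of the first coordinate
  have hdiff : ∀ y ∈ X, ∀ y' ∈ X, ∀ k ∈ K,
      toF p t ht (V y k) - toF p t ht (V y k₀) = toF p t ht (V y' k) - toF p t ht (V y' k₀) ∧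
      (ex p t ht (V y k) : ℤ) - ex p t ht (V y k₀) = ex p t ht (V y' k) - ex p t ht (V y' k₀) := by
    intro y hy y' hy' k hk
    have h2 := psi_diff ht (hV y hy k hk) (hV y hy k₀ hk₀) (hV y' hy' k hk) (hV y' hy' k₀ hk₀)
      (by rw [hVpsi y hy k hk, hVpsi y hy k₀ hk₀, hVpsi y' hy' k hk, hVpsi y' hy' k₀ hk₀]; ring)
    exact ⟨toF_diff ht h2.1, h2.2⟩
  let x₀ := x 0
  have hx₀ : x₀ ∈ X := hx 0
  let Y : ℤ → GaloisField p t := fun k => toF p t ht (V x₀ k) - toF p t ht (V x₀ k₀)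
  have hYinj : Set.InjOn Y K := by
    intro k hk k' hk' h
    have h2 : toF p t ht (V x₀ k) = toF p t ht (V x₀ k') := sub_left_injective h
    have h3 := toF_inj p t ht (dig_lt (hV x₀ hx₀ k hk)) (dig_lt (hV x₀ hx₀ k' hk')) h2
    have h4 := hVpsi x₀ hx₀ k hk
    rw [h3, hVpsi x₀ hx₀ k' hk'] at h4
    linarith
  let γ : ZMod p := ((gen p : (ZMod p)ˣ) : ZMod p)
  have hγ : γ ≠ 0 := Units.ne_zero _
  -- the multiplicative part
  let cc : ℤ → ZMod p := fun k => γ ^ ((ex p t ht (V x₀ k) : ℤ) - ex p t ht (V x₀ k₀))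
  -- c as a function of Y
  let c : GaloisField p t → ZMod p := fun y => if h : ∃ k ∈ K, Y k = y then cc h.choose else 1
  have hcY : ∀ k ∈ K, c (Y k) = cc k := by
    intro k hk
    have h : ∃ k' ∈ K, Y k' = Y k := ⟨k, hk, rfl⟩
    simp only [c]
    rw [dif_pos h]
    have := hYinj h.choose_spec.1 hk h.choose_spec.2
    rw [this]
  have key := group_bound p t ht (fun i => toF p t ht (V (x i) k₀)) ?_
    (fun i => γ ^ (ex p t ht (V (x i) k₀) : ℤ)) (fun i => zpow_ne_zero _ hγ) (K.image Y) c ?_ ?_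
  · rw [Finset.card_image_of_injOn hYinj, hK] at key
    omega
  · intro i i' h
    have h3 := toF_inj p t ht (dig_lt (hV _ (hx i) k₀ hk₀)) (dig_lt (hV _ (hx i') k₀ hk₀)) h
    have h4 := hVpsi _ (hx i) k₀ hk₀
    rw [h3, hVpsi _ (hx i') k₀ hk₀] at h4
    apply hxinj
    linarith
  · intro y hy
    rw [Finset.mem_image] at hy
    obtain ⟨k, hk, rfl⟩ := hy
    rw [hcY k hk]
    exact zpow_ne_zero _ hγ
  · intro y hy i
    rw [Finset.mem_image] at hy
    obtain ⟨k, hk, rfl⟩ := hy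
    rw [hcY k hk]
    have h2 := hdiff (x i) (hx i) x₀ hx₀ k hk
    have h3 : toF p t ht (V (x i) k₀) + Y k = toF p t ht (V (x i) k) := by
      simp only [Y]
      rw [← h2.1]; ring
    rw [h3]
    simp only [cc]
    rw [← zpow_add₀ hγ, ← h2.2, add_sub_cancel, zpow_natCast]
    exact (gen_pow_dlog p (norm_ne ht (hV _ (hx i) k hk))).symm

end construction


theorem result : ∀ h g : ℕ, 2 ≤ h → (h - 1).factorial + 1 ≤ g → OptimalOrder g h := by
  intro h g hh hg
  obtain ⟨t, rfl⟩ : ∃ t, h = t + 1 := ⟨h - 1, by omega⟩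
  have ht : t ≠ 0 := by omega
  simp only [Nat.add_sub_cancel] at hg
  refine ⟨1 / (2 * 4 ^ t), by positivity, 16 ^ (t + 1), ?_⟩
  intro n hn
  set y : ℝ := (n : ℝ) ^ (1 / ((t + 1 : ℕ) : ℝ)) with hy
  have hn0 : (0 : ℝ) ≤ n := by positivity
  have hyn : y ^ (t + 1) = n := by
    rw [hy, ← Real.rpow_natCast, ← Real.rpow_mul hn0, one_div, inv_mul_cancel₀ (by positivity), Real.rpow_one]
  have hy0 : 0 ≤ y := by positivity
  have hy16 : 16 ≤ y := by
    have h1 : (16 : ℝ) ^ (t + 1) ≤ y ^ (t + 1) := by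
      rw [hyn]; exact_mod_cast hn
    exact le_of_pow_le_pow_left₀ (by omega) hy0 h1
  set m := ⌊y⌋₊ with hm
  have hm1 : (m : ℝ) ≤ y := Nat.floor_le hy0
  have hm2 : y < m + 1 := Nat.lt_floor_add_one y
  have hm16 : 16 ≤ m := Nat.le_floor (by exact_mod_cast hy16)
  obtain ⟨p, hp, hp1, hp2⟩ := Nat.exists_prime_lt_and_le_two_mul (m / 2) (by omega)
  have : Fact p.Prime := ⟨hp⟩
  have hpm : p ≤ m := by omega
  have hpy : y / 2 ≤ p := by
    have : m + 1 ≤ 2 * p := by omega
    have h2 : ((m : ℝ) + 1) ≤ 2 * p := by exact_mod_cast this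
    linarith
  refine ⟨theSet (p := p) (t := t) ht, ?_, theSet_isCSet ht hg, ?_⟩
  · intro a ha
    obtain ⟨h1, h2⟩ := theSet_range ht ha
    refine ⟨h1, h2.trans ?_⟩
    have h3 : ((p : ℝ)) ^ (t + 1) ≤ n := by
      rw [← hyn]
      exact pow_le_pow_left₀ (by positivity) (le_trans (by exact_mod_cast hpm) hm1) _
    exact_mod_cast h3
  · rw [card_theSet]
    have h1 : (y / 4) ^ t ≤ ((((p + 1) / 2) ^ t : ℕ) : ℝ) := by
      push_cast
      refine pow_le_pow_left₀ (by positivity) ?_ t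
      have h2 : p ≤ 2 * ((p + 1) / 2) := by omega
      have h3 : (p : ℝ) ≤ 2 * (((p + 1) / 2 : ℕ) : ℝ) := by exact_mod_cast h2
      linarith
    have h4 : (2 : ℝ) ≤ (y / 4) ^ t := by
      calc (2 : ℝ) ≤ 4 ^ 1 := by norm_num
        _ ≤ 4 ^ t := pow_le_pow_right₀ (by norm_num) (by omega)
        _ ≤ (y / 4) ^ t := pow_le_pow_left₀ (by norm_num) (by linarith) t
    have h5 : (n : ℝ) ^ (1 - 1 / ((t + 1 : ℕ) : ℝ)) = y ^ t := by
      rw [hy, ← Real.rpow_natCast, ← Real.rpow_mul hn0]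
      congr 1
      push_cast
      field_simp
      ring
    have h6 : 1 ≤ ((p + 1) / 2) ^ t := by
      have : (1 : ℝ) ≤ ((((p + 1) / 2) ^ t : ℕ) : ℝ) := by linarith
      exact_mod_cast this
    rw [h5, Nat.cast_sub h6]
    have h7 : 1 / (2 * 4 ^ t) * y ^ t = (y / 4) ^ t / 2 := by
      rw [div_pow]; field_simp
    rw [h7, Nat.cast_one]
    linarith

end Pool.Agent.Results.MP_7f687a_co.ProjectiveNorm
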